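import Pool.Agent.H317.GH.Stm

/-!
# Project GH, statement `S_AIQ`: surjective modulo one prime implies absolutely irreducible over `ℚ`
-/

set_option autoImplicit false

namespace Pool.Agent.H965.GH

open Matrix Module Pool.Agent.H317.GR Pool.Agent.H317.GH

variable {n : ℕ}

/-- an elementary matrix -/
def xt {i j : Fin n} (h : i ≠ j) (a : ℤ) : SZ n := SpecialLinearGroup.transvection h a

lemma sepR (R : Type) [CommRing R] (hn : 2 ≤ n) (Y : Matrix (Fin n) (Fin n) R)
    (h : ∀ A : SZ n, (Y * (Int.castRingHom R).mapMatrix A.val).trace = 0) : Y = 0 := by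
  have h0 : Y.trace = 0 := by
    have := h 1
    rw [show (1 : SZ n).val = 1 from rfl, map_one, mul_one] at this
    exact this
  have hm : ∀ i j : Fin n, (Int.castRingHom R).mapMatrix (Matrix.single i j 1) =
      Matrix.single i j 1 := by
    intro i j
    ext a b
    simp only [RingHom.mapMatrix_apply, Matrix.map_apply, Matrix.single, Matrix.of_apply]
    split_ifs <;> simp
  have hs : ∀ i j : Fin n, (Y * Matrix.single i j 1).trace = Y j i := by
    intro i j
    rw [Matrix.trace_mul_single]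
    simp
  have hoff : ∀ i j : Fin n, i ≠ j → Y j i = 0 := by
    intro i j hij
    have := h (xt hij 1)
    rw [show (xt hij 1).val = 1 + Matrix.single i j 1 from rfl, map_add, map_one, hm, mul_add,
      mul_one, Matrix.trace_add, h0, zero_add, hs] at this
    exact this
  have hdiag : ∀ i j : Fin n, i ≠ j → Y i i = 0 := by
    intro i j hij
    have := h (xt hij 1 * xt hij.symm 1)
    rw [show (xt hij 1 * xt hij.symm 1).val = (1 + Matrix.single i j 1) * (1 + Matrix.single j i 1)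
      from rfl, map_mul, map_add, map_add, map_one, hm, hm] at this
    have e : Y * ((1 + Matrix.single i j 1) * (1 + Matrix.single j i 1)) =
        Y + Y * Matrix.single j i 1 + Y * Matrix.single i j 1 + Y * Matrix.single i i 1 := by
      simp only [mul_add, add_mul, mul_one, one_mul, Matrix.single_mul_single_same]
      abel
    rw [e, Matrix.trace_add, Matrix.trace_add, Matrix.trace_add, h0, hs, hs, hs, hoff i j hij,
      hoff j i hij.symm] at this
    simpa using this
  ext i j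
  by_cases hij : i = j
  · subst hij
    obtain ⟨j, hj⟩ : ∃ j : Fin n, i ≠ j := by
      by_cases h0 : i = ⟨0, by omega⟩
      · exact ⟨⟨1, by omega⟩, by rw [h0]; simp [Fin.ext_iff]⟩
      · exact ⟨_, h0⟩
    exact hdiag i j hj
  · exact hoff j i (Ne.symm hij)

theorem aiq : S_AIQ := by
  intro n hn Λ _ φ p hp hd X hX
  haveI : Fact p.Prime := ⟨hp⟩
  by_contra hne
  have : Nonempty (Fin n × Fin n) := ⟨(⟨0, by omega⟩, ⟨0, by omega⟩)⟩
  obtain ⟨m, hm⟩ := Finite.exists_max (fun ij : Fin n × Fin n => ‖((X ij.1 ij.2 : ℚ) : ℚ_[p])‖)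
  set c : ℚ_[p] := ((X m.1 m.2 : ℚ) : ℚ_[p]) with hc
  have hc0 : c ≠ 0 := by
    intro h
    apply hne
    ext i j
    have h1 : ‖((X i j : ℚ) : ℚ_[p])‖ ≤ ‖c‖ := hm (i, j)
    rw [h, norm_zero] at h1
    have h2 : ((X i j : ℚ) : ℚ_[p]) = 0 := norm_le_zero_iff.1 h1
    exact_mod_cast h2
  have hnm : ∀ i j, ‖((X i j : ℚ) : ℚ_[p]) / c‖ ≤ 1 := by
    intro i j
    rw [norm_div, div_le_one (norm_pos_iff.2 hc0)]
    exact hm (i, j)
  set Y : Matrix (Fin n) (Fin n) ℤ_[p] :=
    Matrix.of fun i j => ⟨((X i j : ℚ) : ℚ_[p]) / c, hnm i j⟩ with hY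
  have htr : ∀ g, (Y * (Int.castRingHom ℤ_[p]).mapMatrix (φ g).val).trace = 0 := by
    intro g
    apply Subtype.coe_injective
    have h1 : (X * (((std n ℚ).comp φ) g).val).trace = 0 := hX g
    have h2 : (((Y * (Int.castRingHom ℤ_[p]).mapMatrix (φ g).val).trace : ℤ_[p]) : ℚ_[p]) =
        c⁻¹ * (((X * (((std n ℚ).comp φ) g).val).trace : ℚ) : ℚ_[p]) := by
      simp only [Matrix.trace, Matrix.diag, Matrix.mul_apply, PadicInt.coe_sum, PadicInt.coe_mul,
        Finset.mul_sum, Rat.cast_sum, Rat.cast_mul]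
      refine Finset.sum_congr rfl fun i _ => Finset.sum_congr rfl fun j _ => ?_
      have h3 : ((Y i j : ℤ_[p]) : ℚ_[p]) = ((X i j : ℚ) : ℚ_[p]) / c := rfl
      have h4 : (((std n ℚ).comp φ) g).val j i = (((φ g).val j i : ℤ) : ℚ) := rfl
      have h5 : (((Int.castRingHom ℤ_[p]).mapMatrix (φ g).val j i : ℤ_[p]) : ℚ_[p]) =
          (((φ g).val j i : ℤ) : ℚ_[p]) := by
        rw [RingHom.mapMatrix_apply, Matrix.map_apply]
        exact PadicInt.coe_intCast _
      rw [h3, h4, h5, Rat.cast_intCast]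
      ring
    change (((Y * (Int.castRingHom ℤ_[p]).mapMatrix (φ g).val).trace : ℤ_[p]) : ℚ_[p]) =
      ((0 : ℤ_[p]) : ℚ_[p])
    rw [h2, h1, Rat.cast_zero, mul_zero, PadicInt.coe_zero]
  set Z : Matrix (Fin n) (Fin n) (ZMod (p ^ 1)) := (PadicInt.toZModPow 1).mapMatrix Y with hZ
  have hZ0 : Z = 0 := by
    refine sepR _ hn Z fun A => ?_
    obtain ⟨g, hg⟩ := hd A
    have h1 := congrArg (PadicInt.toZModPow 1 : ℤ_[p] →+* ZMod (p ^ 1)) (htr g)
    rw [AddMonoidHom.map_trace, map_zero] at h1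
    have h2 : (Y * (Int.castRingHom ℤ_[p]).mapMatrix (φ g).val).map
        (PadicInt.toZModPow 1 : ℤ_[p] →+* ZMod (p ^ 1)) =
        Z * (Int.castRingHom (ZMod (p ^ 1))).mapMatrix A.val := by
      have h3 := map_mul ((PadicInt.toZModPow 1 : ℤ_[p] →+* ZMod (p ^ 1)).mapMatrix) Y
        ((Int.castRingHom ℤ_[p]).mapMatrix (φ g).val)
      refine h3.trans ?_
      congr 1
      ext i j
      have h4 : ((p : ℕ) : ℤ) ∣ (φ g).val i j - A.val i j := hg i j
      have h5 : (((φ g).val i j : ℤ) : ZMod (p ^ 1)) = ((A.val i j : ℤ) : ZMod (p ^ 1)) := by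
        rw [← sub_eq_zero, ← Int.cast_sub, ZMod.intCast_zmod_eq_zero_iff_dvd, pow_one]
        exact h4
      simp only [RingHom.mapMatrix_apply, Matrix.map_apply, Int.coe_castRingHom, map_intCast]
      exact h5
    rw [h2] at h1
    exact h1
  have h1 := congrFun (congrFun hZ0 m.1) m.2
  have h2 : Z m.1 m.2 = 1 := by
    have h3 : Y m.1 m.2 = 1 := by
      apply Subtype.coe_injective
      change ((X m.1 m.2 : ℚ) : ℚ_[p]) / c = ((1 : ℤ_[p]) : ℚ_[p])
      rw [← hc, div_self hc0, PadicInt.coe_one]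
    change (PadicInt.toZModPow 1 : ℤ_[p] →+* ZMod (p ^ 1)) (Y m.1 m.2) = 1
    rw [h3, map_one]
  rw [h2] at h1
  have h4 : ((1 : ℕ) : ZMod (p ^ 1)) = 0 := by
    rw [Nat.cast_one]
    exact h1
  rw [ZMod.natCast_eq_zero_iff, pow_one] at h4
  exact hp.one_lt.ne' (Nat.dvd_one.1 h4)

end Pool.Agent.H965.GH
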